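import Mathlib

/-!
# The cheating robot cop number is not monotone under taking connected subgraphs

We exhibit a connected graph `G` on 7 vertices with `c_cr(G) ≤ 2` and a connected spanning
subgraph `H` of `G` (one edge removed) with `c_cr(H) ≥ 3`.
-/

namespace Pool.Agent.Results.MP_55b43c_co.SpanningCounterexample

/-- One move of the `k` cops from the positions `p` to the positions `q`. -/
def IsMove {V : Type*} (G : SimpleGraph V) {k : ℕ} (p q : Fin k → V) : Prop :=
  ∀ i, q i = p i ∨ G.Adj (p i) (q i)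

/-- The robot, moving from `r` to `s` after the cops have moved from `p` to `q`, is captured: it
ends on a cop's vertex, or it traverses an edge which a cop has traversed in this round (in
either direction). -/
def Captured {V : Type*} {k : ℕ} (p q : Fin k → V) (r s : V) : Prop :=
  (∃ i, q i = s) ∨ (r ≠ s ∧ ∃ i, (p i = r ∧ q i = s) ∨ (p i = s ∧ q i = r))

/-- The cops, to move, standing at `p` with the robot at `r`, can force the capture of the
robot (in a bounded number of rounds). -/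
inductive CopWin {V : Type*} (G : SimpleGraph V) (k : ℕ) : (Fin k → V) → V → Prop
  | step {p : Fin k → V} {r : V} (q : Fin k → V) (hq : IsMove G p q)
      (h : ∀ s, (s = r ∨ G.Adj r s) → ¬ Captured p q r s → CopWin G k q s) : CopWin G k p r

/-- `k` cops have a winning strategy on `G`: they can choose a placement `p` such that, wherever
the robot is then placed, they can force its capture. -/
def CopsWin {V : Type*} (G : SimpleGraph V) (k : ℕ) : Prop :=
  ∃ p : Fin k → V, ∀ r, CopWin G k p r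

/-- The cheating robot cop number. -/
noncomputable def ccr {V : Type*} (G : SimpleGraph V) : ℕ := sInf {k | CopsWin G k}

/-! ### One more cop does not hurt -/

theorem CopWin.cons {V : Type*} {G : SimpleGraph V} {k : ℕ} {p : Fin k → V} {r : V}
    (h : CopWin G k p r) (x : V) : CopWin G (k + 1) (Fin.cons x p : Fin (k + 1) → V) r := by
  induction h with
  | @step p r q hq h ih =>
    refine CopWin.step (Fin.cons x q : Fin (k + 1) → V) ?_ ?_
    · intro i
      refine Fin.cases ?_ (fun j => ?_) i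
      · left; simp
      · simpa using hq j
    · intro s hs hc
      refine ih s hs ?_
      intro hc'
      apply hc
      rcases hc' with ⟨i, hi⟩ | ⟨hne, i, hi⟩
      · exact Or.inl ⟨i.succ, by simpa using hi⟩
      · exact Or.inr ⟨hne, i.succ, by simpa using hi⟩

theorem CopsWin.succ {V : Type*} [Nonempty V] {G : SimpleGraph V} {k : ℕ}
    (h : CopsWin G k) : CopsWin G (k + 1) := by
  obtain ⟨p, hp⟩ := h
  obtain ⟨x⟩ := ‹Nonempty V›
  exact ⟨(Fin.cons x p : Fin (k + 1) → V), fun r => (hp r).cons x⟩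

theorem CopsWin.mono {V : Type*} [Nonempty V] {G : SimpleGraph V} {k l : ℕ} (hkl : k ≤ l)
    (h : CopsWin G k) : CopsWin G l := by
  induction hkl with
  | refl => exact h
  | step _ ih => exact ih.succ

/-! ### The two graphs -/

/-- adjacency test from a 7×7 bit matrix -/
def tb (x : ℕ) (a b : Fin 7) : Bool := Nat.testBit x (7 * a.val + b.val)

/-- The graph `G`: edges 13, 23, 04, 34, 15, 25, 45, 06, 16, 26, 56. -/
def G : SimpleGraph (Fin 7) where
  Adj a b := tb 174489805141072 a b = true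
  symm := ⟨by decide +kernel⟩
  loopless := ⟨by decide +kernel⟩

/-- The graph `H`: `G` without the edge 56. -/
def H : SimpleGraph (Fin 7) where
  Adj a b := tb 31553293530192 a b = true
  symm := ⟨by decide +kernel⟩
  loopless := ⟨by decide +kernel⟩

instance : DecidableRel G.Adj := fun a b => inferInstanceAs (Decidable (tb _ a b = true))
instance : DecidableRel H.Adj := fun a b => inferInstanceAs (Decidable (tb _ a b = true))

/-- Boolean version of `Captured` for two cops. -/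
def capB (a b a' b' r s : Fin 7) : Bool :=
  (a' == s || b' == s) || (!(r == s) && ((a == r && a' == s) || (a == s && a' == r) ||
    (b == r && b' == s) || (b == s && b' == r)))

theorem capB_iff (p q : Fin 2 → Fin 7) (r s : Fin 7) :
    capB (p 0) (p 1) (q 0) (q 1) r s = true ↔ Captured p q r s := by
  simp only [capB, Captured, Bool.or_eq_true, Bool.and_eq_true, beq_iff_eq, Bool.not_eq_true',
    beq_eq_false_iff_ne, ne_eq, Fin.exists_fin_two]
  tauto

/-- For the cops on `G`: rank and cops' move, indexed by `49 * a + 7 * b + r`. -/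
def stratG : List (ℕ × ℕ × ℕ) :=
  [(2,4,6),(6,0,4),(6,0,4),(5,6,6),(6,0,4),(6,0,4),(6,0,4),(2,4,6),(5,6,5),(5,6,5),(5,6,1),(5,6,5)
  ,(5,6,5),(5,6,5),(2,4,6),(5,6,5),(5,6,5),(5,6,2),(5,6,5),(5,6,5),(5,6,5),(2,6,4),(6,0,1),(6,0,1)
  ,(5,6,1),(6,0,1),(6,0,1),(6,0,1),(1,6,0),(5,6,5),(5,6,5),(5,6,5),(5,6,5),(5,6,5),(5,6,5),(2,4,6)
  ,(4,6,1),(4,6,2),(5,6,1),(5,6,5),(5,6,5),(5,4,6),(1,4,0),(5,6,5),(5,6,5),(5,6,1),(5,6,5),(5,6,5)
  ,(5,6,5),(2,6,4),(5,5,6),(5,5,6),(5,1,6),(5,5,6),(5,5,6),(5,5,6),(3,3,6),(5,5,6),(5,5,6),(5,1,5)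
  ,(3,3,5),(5,5,6),(5,5,6),(3,3,6),(5,5,6),(5,5,6),(3,1,3),(3,3,5),(5,5,6),(5,5,6),(2,6,4),(6,1,1)
  ,(6,1,1),(3,3,2),(2,5,4),(6,1,1),(6,1,1),(1,6,0),(5,6,5),(5,6,5),(5,1,5),(3,3,5),(5,6,5),(5,6,5)
  ,(2,6,4),(4,6,1),(4,6,2),(3,3,2),(3,3,5),(5,5,6),(5,1,6),(3,3,6),(4,5,1),(4,5,2),(3,3,2),(3,3,5)
  ,(5,1,5),(5,5,6),(2,6,4),(5,5,6),(5,5,6),(5,2,6),(5,5,6),(5,5,6),(5,5,6),(3,3,6),(5,5,6),(5,5,6)
  ,(3,2,3),(3,3,5),(5,5,6),(5,5,6),(3,3,6),(5,5,6),(5,5,6),(5,2,5),(3,3,5),(5,5,6),(5,5,6),(2,6,4)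
  ,(6,2,1),(6,2,1),(3,3,1),(2,5,4),(6,2,1),(6,2,1),(1,6,0),(5,6,5),(5,6,5),(5,2,5),(3,3,5),(5,6,5)
  ,(5,6,5),(2,6,4),(4,6,1),(4,6,2),(3,3,1),(3,3,5),(5,5,6),(5,2,6),(3,3,6),(4,5,1),(4,5,2),(3,3,1)
  ,(3,3,5),(5,2,5),(5,5,6),(2,4,6),(6,1,0),(6,1,0),(5,1,6),(6,1,0),(6,1,0),(6,1,0),(2,4,6),(6,1,1)
  ,(6,1,1),(3,2,3),(2,4,5),(6,1,1),(6,1,1),(2,4,6),(6,1,2),(6,1,2),(3,1,3),(2,4,5),(6,1,2),(6,1,2)
  ,(6,1,1),(6,1,1),(6,1,1),(4,1,2),(6,1,1),(6,1,1),(6,1,1),(6,1,0),(6,1,0),(6,1,0),(5,1,5),(2,4,5)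
  ,(6,1,0),(6,1,0),(2,4,6),(6,1,1),(6,1,1),(4,1,2),(2,4,5),(6,1,1),(5,1,6),(1,4,0),(6,1,0),(6,1,0)
  ,(4,1,2),(2,4,5),(5,1,5),(6,1,0),(1,0,6),(5,5,6),(5,5,6),(5,5,6),(5,5,6),(5,5,6),(5,5,6),(1,0,6)
  ,(5,5,6),(5,5,6),(5,5,1),(3,3,5),(5,5,6),(5,5,6),(1,0,6),(5,5,6),(5,5,6),(5,5,2),(3,3,5),(5,5,6)
  ,(5,5,6),(6,0,1),(6,0,1),(6,0,1),(5,5,1),(2,5,4),(6,0,1),(6,0,1),(6,0,4),(6,0,4),(6,0,4),(5,5,5)
  ,(3,3,5),(6,0,4),(6,0,4),(1,0,6),(5,5,6),(5,5,6),(5,5,1),(3,3,5),(5,5,6),(5,4,6),(1,0,0),(4,5,1)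
  ,(4,5,2),(5,5,1),(3,3,5),(5,5,5),(5,5,6),(2,4,6),(4,1,6),(4,2,6),(5,1,6),(5,5,6),(5,5,6),(5,5,6)
  ,(2,4,6),(4,1,6),(4,2,6),(3,2,3),(3,5,3),(5,5,6),(5,5,6),(2,4,6),(4,1,6),(4,2,6),(3,1,3),(3,5,3)
  ,(5,5,6),(5,5,6),(2,6,4),(6,1,1),(6,1,1),(4,1,2),(2,5,4),(6,1,1),(5,6,1),(1,6,0),(5,6,5),(5,6,5)
  ,(5,1,5),(3,5,3),(5,6,5),(5,6,4),(2,4,6),(4,1,6),(4,2,6),(4,1,2),(4,1,5),(5,5,6),(5,1,6),(1,4,0)
  ,(4,1,6),(4,2,6),(4,1,2),(4,1,5),(5,1,5),(5,5,6),(1,0,4),(5,5,6),(5,5,6),(5,1,6),(5,5,6),(5,5,6)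
  ,(5,5,6),(3,6,3),(4,1,5),(4,2,5),(3,2,3),(3,5,3),(5,5,1),(5,5,6),(3,6,3),(4,1,5),(4,2,5),(3,1,3)
  ,(3,5,3),(5,5,2),(5,5,6),(1,0,4),(6,0,1),(6,0,1),(4,1,2),(2,5,4),(5,5,1),(6,0,1),(1,0,0),(4,1,5)
  ,(4,2,5),(5,1,5),(3,5,3),(5,5,5),(5,6,5),(1,0,4),(4,1,5),(4,2,5),(4,1,2),(4,1,5),(5,5,1),(5,1,6)
  ,(4,1,6),(4,1,5),(4,2,5),(4,1,2),(4,1,5),(5,1,5),(5,5,6)]

def sg (a b r : Fin 7) : ℕ × ℕ × ℕ := stratG.getD (49 * a.val + 7 * b.val + r.val) (0, 0, 0)

def f7 (x : ℕ) : Fin 7 := Fin.ofNat 7 x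

def checkG : Bool :=
  (List.finRange 7).all fun a => (List.finRange 7).all fun b => (List.finRange 7).all fun r =>
    let t := sg a b r
    let a' := f7 t.2.1
    let b' := f7 t.2.2
    (a' == a || tb 174489805141072 a a') && (b' == b || tb 174489805141072 b b') &&
      (List.finRange 7).all fun s =>
        !(s == r || tb 174489805141072 r s) || capB a b a' b' r s || decide ((sg a' b' s).1 < t.1)

theorem checkG_true : checkG = true := by decide +kernel

theorem copWin_G (n : ℕ) : ∀ p : Fin 2 → Fin 7, ∀ r : Fin 7, (sg (p 0) (p 1) r).1 ≤ n →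
    CopWin G 2 p r := by
  induction n using Nat.strong_induction_on with
  | _ n ih =>
    intro p r hn
    have h := checkG_true
    simp only [checkG, List.all_eq_true, List.mem_finRange, forall_true_left,
      Bool.and_eq_true] at h
    obtain ⟨⟨h1, h2⟩, h3⟩ := h (p 0) (p 1) r
    set t := sg (p 0) (p 1) r with ht
    refine CopWin.step ![f7 t.2.1, f7 t.2.2] ?_ ?_
    · intro i
      fin_cases i
      · rw [Bool.or_eq_true, beq_iff_eq] at h1
        exact h1
      · rw [Bool.or_eq_true, beq_iff_eq] at h2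
        exact h2
    · intro s hs hc
      have h4 := h3 s
      have hcb : capB (p 0) (p 1) (f7 t.2.1) (f7 t.2.2) r s = false := by
        have := capB_iff p ![f7 t.2.1, f7 t.2.2] r s
        simp only [Matrix.cons_val_zero, Matrix.cons_val_one] at this
        rw [← this] at hc
        simpa using hc
      rw [hcb, Bool.or_false, Bool.or_eq_true, Bool.not_eq_true', Bool.or_eq_false_iff,
        beq_eq_false_iff_ne, decide_eq_true_eq] at h4
      have h5 : (sg (f7 t.2.1) (f7 t.2.2) s).1 < t.1 := by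
        rcases h4 with ⟨h6, h7⟩ | h4
        · exfalso
          rcases hs with e | e
          · exact h6 e
          · have e' : tb 174489805141072 r s = true := e
            rw [h7] at e'
            exact Bool.noConfusion e'
        · exact h4
      exact ih _ (lt_of_lt_of_le h5 hn) ![f7 t.2.1, f7 t.2.2] s le_rfl

theorem copsWin_G : CopsWin G 2 := ⟨![0, 0], fun r => copWin_G _ _ r le_rfl⟩

/-- For the robot on `H`: bit masks of safe robot positions, indexed by `7 * a + b`. -/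
def safeH : List ℕ :=
  [126,126,126,126,126,126,126,126,127,127,126,126,126,127,126,127,127,126,126,126,127,126,126,126
  ,127,127,127,126,126,126,126,127,127,127,126,126,126,126,127,127,127,126,126,127,127,126,126,126
  ,127]

def sh (a b r : Fin 7) : Bool := Nat.testBit (safeH.getD (7 * a.val + b.val) 0) r.val

def checkH : Bool :=
  (List.finRange 7).all fun a => (List.finRange 7).all fun b => (List.finRange 7).all fun r =>
    !(sh a b r) ||
      (List.finRange 7).all fun a' => !(a' == a || tb 31553293530192 a a') ||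
        (List.finRange 7).all fun b' => !(b' == b || tb 31553293530192 b b') ||
          (List.finRange 7).any fun s =>
            (s == r || tb 31553293530192 r s) && !(capB a b a' b' r s) && sh a' b' s

theorem checkH_true : checkH = true := by decide +kernel

def startH : Bool :=
  (List.finRange 7).all fun a => (List.finRange 7).all fun b =>
    (List.finRange 7).any fun r => !(a == r) && !(b == r) && sh a b r

theorem startH_true : startH = true := by decide +kernel

theorem not_copWin_H {p : Fin 2 → Fin 7} {r : Fin 7} (h : CopWin H 2 p r) :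
    sh (p 0) (p 1) r = false := by
  induction h with
  | @step p r q hq h ih =>
    by_contra hs
    have hs' : sh (p 0) (p 1) r = true := by simpa using hs
    have hc := checkH_true
    simp only [checkH, List.all_eq_true, List.mem_finRange, forall_true_left,
      List.any_eq_true, Bool.or_eq_true, Bool.and_eq_true, Bool.not_eq_true',
      Bool.or_eq_false_iff, beq_eq_false_iff_ne, beq_iff_eq, true_and] at hc
    have h1 := (hc (p 0) (p 1) r).resolve_left (by rw [hs']; exact Bool.noConfusion)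
    have h2 := (h1 (q 0)).resolve_left (by
      rintro ⟨ha, hb⟩
      rcases hq 0 with e | e
      · exact ha e
      · have e' : tb 31553293530192 (p 0) (q 0) = true := e
        rw [hb] at e'; exact Bool.noConfusion e')
    have h3 := (h2 (q 1)).resolve_left (by
      rintro ⟨ha, hb⟩
      rcases hq 1 with e | e
      · exact ha e
      · have e' : tb 31553293530192 (p 1) (q 1) = true := e
        rw [hb] at e'; exact Bool.noConfusion e')
    obtain ⟨s, ⟨hs1, hs2⟩, hs3⟩ := h3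
    have h4 := ih s hs1 (by rw [← capB_iff, hs2]; exact Bool.noConfusion)
    rw [hs3] at h4
    exact Bool.noConfusion h4

theorem not_copsWin_H : ¬ CopsWin H 2 := by
  rintro ⟨p, hp⟩
  have h := startH_true
  simp only [startH, List.all_eq_true, List.mem_finRange, forall_true_left,
    List.any_eq_true, Bool.and_eq_true, Bool.not_eq_true', beq_eq_false_iff_ne, true_and] at h
  obtain ⟨r, ⟨h0, h1⟩, h2⟩ := h (p 0) (p 1)
  have h3 := not_copWin_H (hp r)
  rw [h2] at h3
  exact Bool.noConfusion h3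

theorem H_le_G : H ≤ G := by
  intro a b
  revert a b
  decide +kernel

theorem H_conn : H.Connected := by
  have e0 : H.Adj 0 4 := by decide +kernel
  have e1 : H.Adj 3 4 := by decide +kernel
  have e2 : H.Adj 5 4 := by decide +kernel
  have e3 : H.Adj 1 3 := by decide +kernel
  have e4 : H.Adj 2 3 := by decide +kernel
  have e5 : H.Adj 6 0 := by decide +kernel
  have h4 : ∀ v, H.Reachable v 4 := by
    intro v
    fin_cases v
    · exact e0.reachable
    · exact e3.reachable.trans e1.reachable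
    · exact e4.reachable.trans e1.reachable
    · exact e1.reachable
    · exact SimpleGraph.Reachable.refl _
    · exact e2.reachable
    · exact e5.reachable.trans e0.reachable
  have : Nonempty (Fin 7) := ⟨0⟩
  exact ⟨fun a b => (h4 a).trans (h4 b).symm⟩

theorem ccr_G : ccr G ≤ 2 := Nat.sInf_le copsWin_G

theorem ccr_H : 3 ≤ ccr H := by
  have : Nonempty (Fin 7) := ⟨0⟩
  have hne : {k | CopsWin H k}.Nonempty := by
    refine ⟨7, fun i => i, fun r => CopWin.step (fun i => i) (fun i => Or.inl rfl) ?_⟩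
    exact fun s _ hc => absurd (Or.inl ⟨s, rfl⟩) hc
  have hmem : CopsWin H (ccr H) := Nat.sInf_mem hne
  by_contra hlt
  exact not_copsWin_H (hmem.mono (by omega))

/-- **Disproof of subgraph monotonicity of the cheating robot cop number**, already for spanning
subgraphs. -/
theorem result : ∃ (n : ℕ) (G H : SimpleGraph (Fin n)), G.Connected ∧ H.Connected ∧ H ≤ G ∧
    ccr G < ccr H :=
  ⟨7, G, H, H_conn.mono H_le_G, H_conn, H_le_G,
    lt_of_le_of_lt ccr_G (lt_of_lt_of_le (by norm_num) ccr_H)⟩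

end Pool.Agent.Results.MP_55b43c_co.SpanningCounterexample
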